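import Mathlib

/-!
# Rationals with denominator prime to `p`
-/

namespace Pool.Agent.J6H90.FibCong

open Finset

/-- The denominator of `x` is not divisible by `p`. -/
def PInt (p : ℕ) (x : ℚ) : Prop := ¬ p ∣ x.den

lemma pint_iff {p : ℕ} {x : ℚ} : PInt p x ↔ ∃ a b : ℤ, ¬ (p : ℤ) ∣ b ∧ x * b = a := by
  constructor
  · intro h
    refine ⟨x.num, x.den, ?_, ?_⟩
    · exact_mod_cast h
    · simp
  · rintro ⟨a, b, hb, hx⟩ hd
    have hb0 : b ≠ 0 := by rintro rfl; exact hb (dvd_zero _)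
    have hxe : x = (a : ℚ) / (b : ℚ) := by
      rw [eq_div_iff (by exact_mod_cast hb0)]; exact hx
    have h1 : ((Rat.divInt a b).den : ℤ) ∣ b := Rat.den_dvd a b
    rw [Rat.divInt_eq_div, ← hxe] at h1
    exact hb ((by exact_mod_cast hd : (p : ℤ) ∣ (x.den : ℤ)).trans h1)

variable {p : ℕ}

lemma PInt.int (hp : p.Prime) (n : ℤ) : PInt p (n : ℚ) := by
  rw [pint_iff]
  refine ⟨n, 1, ?_, by simp⟩
  intro h
  have := Int.le_of_dvd one_pos h
  have := hp.two_le
  omega

lemma PInt.add (hp : p.Prime) {x y : ℚ} (hx : PInt p x) (hy : PInt p y) : PInt p (x + y) := by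
  rw [pint_iff] at *
  obtain ⟨a, b, hb, h1⟩ := hx
  obtain ⟨c, d, hd, h2⟩ := hy
  refine ⟨a * d + c * b, b * d, ?_, ?_⟩
  · intro h
    rcases (Nat.prime_iff_prime_int.1 hp).dvd_or_dvd h with h | h
    · exact hb h
    · exact hd h
  · push_cast
    rw [← h1, ← h2]; ring

lemma PInt.mul (hp : p.Prime) {x y : ℚ} (hx : PInt p x) (hy : PInt p y) : PInt p (x * y) := by
  rw [pint_iff] at *
  obtain ⟨a, b, hb, h1⟩ := hx
  obtain ⟨c, d, hd, h2⟩ := hy
  refine ⟨a * c, b * d, ?_, ?_⟩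
  · intro h
    rcases (Nat.prime_iff_prime_int.1 hp).dvd_or_dvd h with h | h
    · exact hb h
    · exact hd h
  · push_cast
    rw [← h1, ← h2]; ring

lemma PInt.neg {x : ℚ} (hx : PInt p x) : PInt p (-x) := by
  rw [pint_iff] at *
  obtain ⟨a, b, hb, h1⟩ := hx
  exact ⟨-a, b, hb, by push_cast; rw [← h1]; ring⟩

lemma PInt.sub (hp : p.Prime) {x y : ℚ} (hx : PInt p x) (hy : PInt p y) : PInt p (x - y) := by
  rw [sub_eq_add_neg]; exact hx.add hp hy.neg

lemma PInt.inv_int {n : ℤ} (hn : ¬ (p : ℤ) ∣ n) : PInt p (n : ℚ)⁻¹ := by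
  rw [pint_iff]
  have : n ≠ 0 := by rintro rfl; exact hn (dvd_zero _)
  exact ⟨1, n, hn, by rw [inv_mul_cancel₀ (by exact_mod_cast this)]; simp⟩

lemma PInt.pow (hp : p.Prime) {x : ℚ} (hx : PInt p x) (n : ℕ) : PInt p (x ^ n) := by
  induction n with
  | zero => rw [pow_zero]; exact_mod_cast PInt.int hp 1
  | succ n ih => rw [pow_succ]; exact ih.mul hp hx

lemma PInt.sum (hp : p.Prime) {ι : Type*} (s : Finset ι) (f : ι → ℚ)
    (h : ∀ i ∈ s, PInt p (f i)) : PInt p (∑ i ∈ s, f i) := by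
  classical
  induction s using Finset.induction_on with
  | empty => rw [Finset.sum_empty]; exact_mod_cast PInt.int hp 0
  | insert a s ha ih =>
    rw [Finset.sum_insert ha]
    exact (h a (mem_insert_self a s)).add hp (ih fun i hi => h i (mem_insert_of_mem hi))

/-- A product of factors `1 - p² u` with `u` integral at `p` is `1 + p² y`. -/
lemma prod_one_sub (hp : p.Prime) {ι : Type*} (s : Finset ι) (u : ι → ℚ)
    (h : ∀ i ∈ s, PInt p (u i)) :
    ∃ y, PInt p y ∧ ∏ i ∈ s, (1 - (p : ℚ) ^ 2 * u i) = 1 + (p : ℚ) ^ 2 * y := by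
  classical
  induction s using Finset.induction_on with
  | empty => exact ⟨0, by exact_mod_cast PInt.int hp 0, by simp⟩
  | insert a s ha ih =>
    obtain ⟨y, hy, he⟩ := ih fun i hi => h i (mem_insert_of_mem hi)
    have hu := h a (mem_insert_self a s)
    refine ⟨y - u a - (p : ℚ) ^ 2 * (u a * y), ?_, ?_⟩
    · refine ((hy.sub hp hu).sub hp ?_)
      refine PInt.mul hp ?_ (hu.mul hp hy)
      exact_mod_cast (PInt.int hp (p : ℤ)).pow hp 2
    · rw [Finset.prod_insert ha, he]; ring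

/-- `p / C(2k, k)` is integral at `p` for `k < p`. -/
lemma p_div_central (hp : p.Prime) (h2 : p ≠ 2) {k : ℕ} (hk : k < p) :
    PInt p ((p : ℚ) / (Nat.centralBinom k : ℚ)) := by
  have h3 : 3 ≤ p := by have := hp.two_le; omega
  have hlt : 2 * k < p ^ 2 := by nlinarith
  have hfac : (Nat.choose (2 * k) k).factorization p ≤ 1 := Nat.factorization_choose_le_one hlt
  have hc : Nat.centralBinom k = Nat.choose (2 * k) k := Nat.centralBinom_eq_two_mul_choose k
  have hne : Nat.centralBinom k ≠ 0 := Nat.centralBinom_ne_zero k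
  set c := Nat.centralBinom k with hcdef
  have hfac' : c.factorization p ≤ 1 := by rw [hc]; exact hfac
  have hprod : p ^ c.factorization p * (c / p ^ c.factorization p) = c :=
    Nat.ordProj_mul_ordCompl_eq_self c p
  have hnd : ¬ p ∣ c / p ^ c.factorization p := Nat.not_dvd_ordCompl hp hne
  set m := c / p ^ c.factorization p with hm
  set e := c.factorization p with he
  have hp0 : (p : ℚ) ≠ 0 := by exact_mod_cast hp.ne_zero
  have hm0 : (m : ℚ) ≠ 0 := by
    have : m ≠ 0 := by rintro h; rw [h] at hnd; exact hnd (dvd_zero _)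
    exact_mod_cast this
  have hmi : PInt p ((m : ℤ) : ℚ)⁻¹ := PInt.inv_int (by exact_mod_cast hnd)
  have hcq : (c : ℚ) = (p : ℚ) ^ e * m := by exact_mod_cast hprod.symm
  interval_cases hE : e
  · rw [hcq]
    have : (p : ℚ) / ((p : ℚ) ^ 0 * m) = ((p : ℤ) : ℚ) * ((m : ℤ) : ℚ)⁻¹ := by
      push_cast; field_simp
    rw [this]
    exact (PInt.int hp _).mul hp hmi
  · rw [hcq]
    have : (p : ℚ) / ((p : ℚ) ^ 1 * m) = ((m : ℤ) : ℚ)⁻¹ := by
      push_cast; field_simp
    rw [this]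
    exact hmi

end Pool.Agent.J6H90.FibCong
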