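import Pool.Agent.J6H90.FibCong.Exact
import Pool.Agent.J6H90.FibCong.PInt

/-!
# Binomial coefficients and `1 / (k² C(2k, k))`
-/

namespace Pool.Agent.J6H90.FibCong

open Finset

/-- `C(n+1+k, 2k) + C(n+k, 2k)` as a rational number. -/
def ek (n k : ℕ) : ℚ := ((n + 1 + k).choose (2 * k) : ℚ) + ((n + k).choose (2 * k) : ℚ)

lemma ek_rec {n k : ℕ} (hk : k ≤ n) :
    ek n (k + 1) * ((2 * k + 2) * (2 * k + 1)) = (((n : ℚ) + 1) ^ 2 - k ^ 2) * ek n k := by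
  have h1 := Nat.add_one_mul_choose_eq (n + k + 1) (2 * k + 1)
  have h2 := Nat.add_one_mul_choose_eq (n + k) (2 * k)
  have h3 := Nat.add_one_mul_choose_eq (n + k) (2 * k + 1)
  have h4 := Nat.choose_succ_right_eq (n + k) (2 * k)
  have h5 := Nat.choose_mul_succ_eq (n + k) (2 * k)
  rw [show n + k - 2 * k = n - k by omega] at h4
  rw [show n + k + 1 - 2 * k = n + 1 - k by omega] at h5
  have q1 := congrArg (Nat.cast (R := ℚ)) h1
  have q2 := congrArg (Nat.cast (R := ℚ)) h2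
  have q3 := congrArg (Nat.cast (R := ℚ)) h3
  have q4 := congrArg (Nat.cast (R := ℚ)) h4
  have q5 := congrArg (Nat.cast (R := ℚ)) h5
  push_cast [Nat.cast_sub hk, Nat.cast_sub (show k ≤ n + 1 by omega)] at q1 q2 q3 q4 q5
  unfold ek
  rw [show n + 1 + (k + 1) = n + k + 1 + 1 by ring, show n + (k + 1) = n + k + 1 by ring,
    show 2 * (k + 1) = 2 * k + 1 + 1 by ring, show n + 1 + k = n + k + 1 by ring]
  push_cast
  linear_combination (-(2 * (k : ℚ) + 1)) * q1 - ((n : ℚ) + k + 2) * q2 - (2 * (k : ℚ) + 1) * q3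
    + ((n : ℚ) + k + 1) * q4 + ((n : ℚ) + k + 1) * q5

/-- The product `∏_{1 ≤ j < k} (1 - p²/j²)`. -/
def pr (p : ℚ) (k : ℕ) : ℚ := ∏ j ∈ Ico 1 k, (1 - p ^ 2 * ((j : ℚ) ^ 2)⁻¹)

lemma ek_closed (n k : ℕ) (hk : k ≤ n) :
    ek n (k + 1) * (((k : ℚ) + 1) ^ 2 * Nat.centralBinom (k + 1))
      = (-1) ^ k * (2 * ((n : ℚ) + 1) ^ 2) * pr ((n : ℚ) + 1) (k + 1) := by
  induction k with
  | zero =>
    unfold ek pr
    have h1 := Nat.choose_two_right (n + 2)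
    have h2 := Nat.choose_two_right (n + 1)
    have c1 := Nat.cast_choose_two ℚ (n + 2)
    have c2 := Nat.cast_choose_two ℚ (n + 1)
    have hc1 : Nat.centralBinom 1 = 2 := by decide
    simp only [zero_add, mul_one, hc1, Ico_self, prod_empty]
    rw [show n + 1 + 1 = n + 2 by ring, c1, c2]
    push_cast
    ring
  | succ k ih =>
    have ih' := ih (by omega)
    have hrec := ek_rec (n := n) (k := k + 1) hk
    have hc := Nat.succ_mul_centralBinom_succ (k + 1)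
    have hcq := congrArg (Nat.cast (R := ℚ)) hc
    push_cast at hcq hrec ⊢
    have hpr : pr ((n : ℚ) + 1) (k + 1 + 1)
        = pr ((n : ℚ) + 1) (k + 1) * (1 - ((n : ℚ) + 1) ^ 2 * ((((k + 1 : ℕ) : ℚ)) ^ 2)⁻¹) := by
      unfold pr
      rw [prod_Ico_succ_top (by omega)]
    rw [hpr]
    push_cast
    have hk0 : ((k : ℚ) + 1) ≠ 0 := by positivity
    have e1 : (1 - ((n : ℚ) + 1) ^ 2 * (((k : ℚ) + 1) ^ 2)⁻¹) * ((k : ℚ) + 1) ^ 2
        = ((k : ℚ) + 1) ^ 2 - ((n : ℚ) + 1) ^ 2 := by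
      field_simp
    apply mul_right_cancel₀ (pow_ne_zero 2 hk0)
    have : (-1 : ℚ) ^ (k + 1) * (2 * ((n : ℚ) + 1) ^ 2) * (pr ((n : ℚ) + 1) (k + 1)
        * (1 - ((n : ℚ) + 1) ^ 2 * (((k : ℚ) + 1) ^ 2)⁻¹)) * ((k : ℚ) + 1) ^ 2
        = -(((k : ℚ) + 1) ^ 2 - ((n : ℚ) + 1) ^ 2) *
          ((-1) ^ k * (2 * ((n : ℚ) + 1) ^ 2) * pr ((n : ℚ) + 1) (k + 1)) := by
      rw [pow_succ]
      linear_combination (-(-1 : ℚ) ^ k * (2 * ((n : ℚ) + 1) ^ 2) * pr ((n : ℚ) + 1) (k + 1)) * e1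
    rw [this, ← ih']
    linear_combination (ek n (k + 1 + 1) * ((k : ℚ) + 1 + 1) * ((k : ℚ) + 1) ^ 2) * hcq
      + ((Nat.centralBinom (k + 1) : ℚ) * ((k : ℚ) + 1) ^ 2) * hrec

lemma choose_closed (m k : ℕ) (hk : k ≤ m) :
    (-1) ^ k * ((m + k).choose (2 * k) : ℚ) * 16 ^ k
      = Nat.centralBinom k * ∏ j ∈ range k, (1 - (2 * (m : ℚ) + 1) ^ 2 * ((2 * (j : ℚ) + 1) ^ 2)⁻¹) := by
  induction k with
  | zero => simp
  | succ k ih =>
    have ih' := ih (by omega)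
    rw [prod_range_succ]
    have h1 := Nat.add_one_mul_choose_eq (m + k) (2 * k + 1)
    have h2 := Nat.choose_succ_right_eq (m + k) (2 * k)
    rw [show m + k - 2 * k = m - k by omega] at h2
    have hc := Nat.succ_mul_centralBinom_succ k
    have q1 := congrArg (Nat.cast (R := ℚ)) h1
    have q2 := congrArg (Nat.cast (R := ℚ)) h2
    have q3 := congrArg (Nat.cast (R := ℚ)) hc
    push_cast [Nat.cast_sub (show k ≤ m by omega)] at q1 q2 q3
    rw [show m + (k + 1) = m + k + 1 by ring, show 2 * (k + 1) = 2 * k + 1 + 1 by ring]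
    have hk0 : (2 * (k : ℚ) + 1) ≠ 0 := by positivity
    have hk1 : ((k : ℚ) + 1) ≠ 0 := by positivity
    have e1 : (1 - (2 * (m : ℚ) + 1) ^ 2 * ((2 * (k : ℚ) + 1) ^ 2)⁻¹) * (2 * (k : ℚ) + 1) ^ 2
        = (2 * (k : ℚ) + 1) ^ 2 - (2 * (m : ℚ) + 1) ^ 2 := by
      field_simp
    have hne : ((2 * (k : ℚ) + 1) ^ 2 * ((k : ℚ) + 1)) ≠ 0 := by positivity
    apply mul_right_cancel₀ hne
    generalize hX : ((m + k).choose (2 * k) : ℚ) = X at *
    generalize hY : ((m + k).choose (2 * k + 1) : ℚ) = Y at *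
    generalize hZ : ((m + k + 1).choose (2 * k + 1 + 1) : ℚ) = Z at *
    generalize hPP : ∏ j ∈ range k, (1 - (2 * (m : ℚ) + 1) ^ 2 * ((2 * (j : ℚ) + 1) ^ 2)⁻¹) = PP at *
    generalize hT : (1 - (2 * (m : ℚ) + 1) ^ 2 * ((2 * (k : ℚ) + 1) ^ 2)⁻¹) = T at *
    generalize (Nat.centralBinom (k + 1) : ℚ) = c1 at *
    generalize (Nat.centralBinom k : ℚ) = c0 at *
    rw [pow_succ, pow_succ]
    have s1 : c1 * (PP * T) * ((2 * (k : ℚ) + 1) ^ 2 * ((k : ℚ) + 1))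
        = 2 * (2 * k + 1) * ((2 * (k : ℚ) + 1) ^ 2 - (2 * (m : ℚ) + 1) ^ 2) * (c0 * PP) := by
      linear_combination (PP * T * (2 * (k : ℚ) + 1) ^ 2) * q3
        + (2 * (2 * (k : ℚ) + 1) * c0 * PP) * e1
    rw [s1, ← ih']
    linear_combination ((-1 : ℚ) ^ k * 16 ^ k * 8 * (2 * (k : ℚ) + 1) ^ 2) * q1
      + ((-1 : ℚ) ^ k * 16 ^ k * 8 * (2 * (k : ℚ) + 1) * (-((m : ℚ) + k + 1))) * q2

lemma odd_choose (M k : ℕ) (hk : k ≤ M) :
    (((M + 1 + k).choose (2 * k + 1) : ℚ) + ((M + k).choose (2 * k + 1) : ℚ)) * (2 * k + 1)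
      = (2 * (M : ℚ) + 1) * ((M + k).choose (2 * k) : ℚ) := by
  have h1 := Nat.add_one_mul_choose_eq (M + k) (2 * k)
  have h2 := Nat.choose_succ_right_eq (M + k) (2 * k)
  rw [show M + k - 2 * k = M - k by omega] at h2
  have q1 := congrArg (Nat.cast (R := ℚ)) h1
  have q2 := congrArg (Nat.cast (R := ℚ)) h2
  push_cast [Nat.cast_sub hk] at q1 q2
  rw [show M + 1 + k = M + k + 1 by ring]
  linear_combination -q1 + q2

end Pool.Agent.J6H90.FibCong
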