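import Pool.Agent.J6H90.FibCong.Seq

/-!
# Exact identities for Fibonacci and Lucas numbers
-/

namespace Pool.Agent.J6H90.FibCong

open Finset Real

/-- Lucas numbers. -/
def luc : ℕ → ℤ
  | 0 => 2
  | 1 => 1
  | n + 2 => luc (n + 1) + luc n

lemma luc_real (n : ℕ) : (luc n : ℝ) = goldenRatio ^ n + goldenConj ^ n := by
  induction n using Nat.strong_induction_on with
  | _ n ih =>
    match n with
    | 0 => simp [luc]; norm_num
    | 1 => simp [luc]
    | n + 2 =>
      have h1 := ih (n + 1) (by omega)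
      have h0 := ih n (by omega)
      have : luc (n + 2) = luc (n + 1) + luc n := rfl
      rw [this]
      push_cast
      rw [h1, h0]
      have e1 := goldenRatio_sq
      have e2 := goldenConj_sq
      linear_combination (-goldenRatio ^ n) * e1 - goldenConj ^ n * e2

lemma fib_real (n : ℕ) : ((Nat.fib n : ℤ) : ℝ) = (goldenRatio ^ n - goldenConj ^ n) / √5 := by
  push_cast; exact coe_fib_eq n

/-- A general transfer principle. -/
lemma transfer (s : Finset ℕ) (c : ℕ → ℤ) (e : ℕ → ℕ) (A A' : ℝ)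
    (h1 : ∑ k ∈ s, (c k : ℝ) * goldenRatio ^ e k = A)
    (h2 : ∑ k ∈ s, (c k : ℝ) * goldenConj ^ e k = A') :
    ((∑ k ∈ s, c k * (Nat.fib (e k) : ℤ) : ℤ) : ℝ) = (A - A') / √5 ∧
    ((∑ k ∈ s, c k * luc (e k) : ℤ) : ℝ) = A + A' := by
  constructor
  · rw [← h1, ← h2, ← sum_sub_distrib, sum_div, Int.cast_sum]
    apply sum_congr rfl
    intro k _
    rw [Int.cast_mul, fib_real]; ring
  · rw [← h1, ← h2, ← sum_add_distrib, Int.cast_sum]
    apply sum_congr rfl
    intro k _
    rw [Int.cast_mul, luc_real]; ring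

lemma sumA {R : Type*} [CommRing R] (x : R) (n : ℕ) :
    ∑ k ∈ range (n + 2), (((-1) ^ k * (((n + 1 + k).choose (2 * k) : ℤ)
      + ((n + k).choose (2 * k) : ℤ)) : ℤ) : R) * x ^ (2 * k)
      = SS 0 (n + 1) (x ^ 2) + SS 0 n (x ^ 2) := by
  unfold SS
  rw [← BS_trunc 0 (show n < n + 2 by omega)]
  unfold BS
  rw [← sum_add_distrib]
  apply sum_congr rfl
  intro k _
  push_cast
  rw [pow_mul]
  simp only [add_zero]
  ring

lemma sumC {R : Type*} [CommRing R] (x : R) (m : ℕ) :
    ∑ k ∈ range (m + 2), (((-1) ^ k * (((m + 2 + k).choose (2 * k + 1) : ℤ)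
      + ((m + 1 + k).choose (2 * k + 1) : ℤ)) : ℤ) : R) * x ^ (2 * k + 1)
      = x * (SS 1 (m + 1) (x ^ 2) + SS 1 m (x ^ 2)) := by
  unfold SS
  rw [← BS_trunc 1 (show m < m + 2 by omega)]
  unfold BS
  rw [← sum_add_distrib, mul_sum]
  apply sum_congr rfl
  intro k _
  push_cast
  rw [pow_succ, pow_mul, show m + 1 + k + 1 = m + 2 + k by ring,
    show m + k + 1 = m + 1 + k by ring]
  ring

lemma ep_cases (n : ℕ) : ep n = 1 ∨ ep n = -1 := by
  unfold ep; split_ifs <;> simp

lemma sqrt5_ne : (√5 : ℝ) ≠ 0 := by positivity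

/-- The identities for even indices. -/
theorem exactA (n : ℕ) (hodd : Odd (n + 1)) (h5 : (n + 1) % 5 ≠ 0) :
    ∑ k ∈ range (n + 2), ((-1) ^ k * (((n + 1 + k).choose (2 * k) : ℤ)
      + ((n + k).choose (2 * k) : ℤ))) * (Nat.fib (2 * k) : ℤ) = -ep (n + 1) ∧
    ∑ k ∈ range (n + 2), ((-1) ^ k * (((n + 1 + k).choose (2 * k) : ℤ)
      + ((n + k).choose (2 * k) : ℤ))) * luc (2 * k) = 1 := by
  have h1 := (sumA goldenRatio n).trans (A_eq goldenRatio_sq n hodd h5)
  have h2 := (sumA goldenConj n).trans (A_eq goldenConj_sq n hodd h5)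
  have h := transfer _ _ (fun k => 2 * k) _ _ h1 h2
  have hs := goldenRatio_sub_goldenConj
  have ha := goldenRatio_add_goldenConj
  have h0 := sqrt5_ne
  rcases ep_cases (n + 1) with he | he
  · rw [he] at h ⊢
    simp only [if_true] at h
    constructor
    · have := h.1
      rw [show (1 - goldenRatio - (1 - goldenConj)) / √5 = ((-1 : ℤ) : ℝ) by
        rw [div_eq_iff h0, ← hs]; push_cast; ring] at this
      exact_mod_cast this
    · have := h.2
      rw [show (1 - goldenRatio + (1 - goldenConj)) = ((1 : ℤ) : ℝ) by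
        push_cast; linear_combination -ha] at this
      exact_mod_cast this
  · rw [he] at h ⊢
    rw [if_neg (by norm_num), if_neg (by norm_num)] at h
    constructor
    · have := h.1
      rw [show (goldenRatio - goldenConj) / √5 = ((- -1 : ℤ) : ℝ) by
        rw [div_eq_iff h0, ← hs]; push_cast; ring] at this
      exact_mod_cast this
    · have := h.2
      rw [show (goldenRatio + goldenConj) = ((1 : ℤ) : ℝ) by
        push_cast; linear_combination ha] at this
      exact_mod_cast this

/-- The identities for odd indices. -/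
theorem exactC (m : ℕ) (h5 : (2 * (m + 1) + 1) % 5 ≠ 0) :
    ∑ k ∈ range (m + 2), ((-1) ^ k * (((m + 2 + k).choose (2 * k + 1) : ℤ)
      + ((m + 1 + k).choose (2 * k + 1) : ℤ))) * (Nat.fib (2 * k + 1) : ℤ)
        = (-1) ^ (m + 1) * ep (2 * (m + 1) + 1) ∧
    ∑ k ∈ range (m + 2), ((-1) ^ k * (((m + 2 + k).choose (2 * k + 1) : ℤ)
      + ((m + 1 + k).choose (2 * k + 1) : ℤ))) * luc (2 * k + 1) = (-1) ^ (m + 1) := by
  have h1 := (sumC goldenRatio m).trans (C_eq goldenRatio_sq m h5)
  have h2 := (sumC goldenConj m).trans (C_eq goldenConj_sq m h5)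
  have h := transfer _ _ (fun k => 2 * k + 1) _ _ h1 h2
  have hs := goldenRatio_sub_goldenConj
  have ha := goldenRatio_add_goldenConj
  have h0 := sqrt5_ne
  rcases ep_cases (2 * (m + 1) + 1) with he | he
  · rw [he] at h ⊢
    simp only [if_true] at h
    constructor
    · have := h.1
      rw [show ((-1) ^ (m + 1) * goldenRatio - (-1) ^ (m + 1) * goldenConj) / √5
          = (((-1) ^ (m + 1) * 1 : ℤ) : ℝ) by
        rw [div_eq_iff h0, ← hs]; push_cast; ring] at this
      exact_mod_cast this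
    · have := h.2
      rw [show ((-1) ^ (m + 1) * goldenRatio + (-1) ^ (m + 1) * goldenConj)
          = (((-1) ^ (m + 1) : ℤ) : ℝ) by
        push_cast; linear_combination (-1) ^ (m + 1) * ha] at this
      exact_mod_cast this
  · rw [he] at h ⊢
    rw [if_neg (by norm_num), if_neg (by norm_num)] at h
    constructor
    · have := h.1
      rw [show ((-1) ^ (m + 1) * (1 - goldenRatio) - (-1) ^ (m + 1) * (1 - goldenConj)) / √5
          = (((-1) ^ (m + 1) * -1 : ℤ) : ℝ) by
        rw [div_eq_iff h0, ← hs]; push_cast; ring] at this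
      exact_mod_cast this
    · have := h.2
      rw [show ((-1) ^ (m + 1) * (1 - goldenRatio) + (-1) ^ (m + 1) * (1 - goldenConj))
          = (((-1) ^ (m + 1) : ℤ) : ℝ) by
        push_cast; linear_combination (-(-1) ^ (m + 1)) * ha] at this
      exact_mod_cast this

end Pool.Agent.J6H90.FibCong
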