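import Pool.Agent.J6H90.FibCong.Main

/-!
# The four congruences: conclusion
-/

namespace Pool.Agent.J6H90.FibCong

open Finset

lemma ep_sq (n : ℕ) : (ep n : ℚ) ^ 2 = 1 := by
  rcases ep_cases n with h | h <;> rw [h] <;> norm_num

lemma pint_inv_two_pow {p : ℕ} (hp : p.Prime) (h2 : p ≠ 2) (k : ℕ) :
    PInt p ((((2 ^ k : ℕ) : ℤ) : ℚ)⁻¹) := by
  apply PInt.inv_int
  intro h
  have h' : p ∣ 2 ^ k := by exact_mod_cast h
  exact h2 ((Nat.prime_dvd_prime_iff_eq hp Nat.prime_two).1 (hp.dvd_of_dvd_pow h'))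

/-- The basic data: `F_p = ε + p f`, `L_p = 1 + p l`. -/
lemma data {p : ℕ} (hp : p.Prime) (m : ℕ) (hm : p = 2 * (m + 1) + 1) (h5 : p ≠ 5) :
    ∃ f l : ℤ, (Nat.fib p : ℤ) = ep p + p * f ∧ luc p = 1 + p * l ∧
      ∑ k ∈ range (m + 1), ((-1) ^ k * (((m + 1 + 1 + k).choose (2 * k + 1) : ℤ)
        + ((m + 1 + k).choose (2 * k + 1) : ℤ))) * (Nat.fib (2 * k + 1) : ℤ)
        = (-1) ^ (m + 2) * (p * f) ∧
      ∑ k ∈ range (m + 1), ((-1) ^ k * (((m + 1 + 1 + k).choose (2 * k + 1) : ℤ)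
        + ((m + 1 + k).choose (2 * k + 1) : ℤ))) * luc (2 * k + 1)
        = (-1) ^ (m + 2) * (p * l) := by
  have h5' : (2 * (m + 1) + 1) % 5 ≠ 0 := by
    intro h
    rw [← hm] at h
    have := (Nat.prime_dvd_prime_iff_eq Nat.prime_five hp).1 (Nat.dvd_of_mod_eq_zero h)
    exact h5 this.symm
  obtain ⟨e1, e2⟩ := exactC m h5'
  rw [sum_range_succ] at e1 e2
  have htop : (((m + 2 + (m + 1)).choose (2 * (m + 1) + 1) : ℤ)
      + ((m + 1 + (m + 1)).choose (2 * (m + 1) + 1) : ℤ)) = 1 := by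
    rw [show m + 2 + (m + 1) = 2 * (m + 1) + 1 by ring, Nat.choose_self,
      Nat.choose_eq_zero_of_lt (by omega)]
    norm_num
  rw [htop, ← hm] at e1 e2
  have hdiv : ∀ k ∈ range (m + 1), (p : ℤ) ∣ (((m + 2 + k).choose (2 * k + 1) : ℤ)
        + ((m + 1 + k).choose (2 * k + 1) : ℤ)) := by
    intro k hk
    rw [mem_range] at hk
    have h := odd_choose (m + 1) k (by omega)
    have h' : (((m + 2 + k).choose (2 * k + 1) : ℤ)
        + ((m + 1 + k).choose (2 * k + 1) : ℤ)) * ((2 * k + 1 : ℕ) : ℤ)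
        = (p : ℤ) * ((m + 1 + k).choose (2 * k) : ℤ) := by
      rw [hm]
      rw [show m + 2 + k = m + 1 + 1 + k by ring]
      have : ((((m + 1 + 1 + k).choose (2 * k + 1) : ℤ)
        + ((m + 1 + k).choose (2 * k + 1) : ℤ)) * ((2 * k + 1 : ℕ) : ℤ) : ℚ)
        = (((2 * (m + 1) + 1 : ℕ) : ℤ) * ((m + 1 + k).choose (2 * k) : ℤ) : ℚ) := by
        push_cast at h ⊢
        exact h
      exact_mod_cast this
    have hpd : (p : ℤ) ∣ (((m + 2 + k).choose (2 * k + 1) : ℤ)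
        + ((m + 1 + k).choose (2 * k + 1) : ℤ)) * ((2 * k + 1 : ℕ) : ℤ) := ⟨_, h'⟩
    rcases (Nat.prime_iff_prime_int.1 hp).dvd_or_dvd hpd with h1 | h1
    · exact h1
    · exact absurd h1 (not_dvd_of_lt (by omega) (by omega))
  have hd1 : (p : ℤ) ∣ ∑ k ∈ range (m + 1), ((-1) ^ k * (((m + 2 + k).choose (2 * k + 1) : ℤ)
        + ((m + 1 + k).choose (2 * k + 1) : ℤ))) * (Nat.fib (2 * k + 1) : ℤ) :=
    Finset.dvd_sum fun k hk => Dvd.dvd.mul_right (Dvd.dvd.mul_left (hdiv k hk) _) _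
  have hd2 : (p : ℤ) ∣ ∑ k ∈ range (m + 1), ((-1) ^ k * (((m + 2 + k).choose (2 * k + 1) : ℤ)
        + ((m + 1 + k).choose (2 * k + 1) : ℤ))) * luc (2 * k + 1) :=
    Finset.dvd_sum fun k hk => Dvd.dvd.mul_right (Dvd.dvd.mul_left (hdiv k hk) _) _
  obtain ⟨a, ha⟩ := hd1
  obtain ⟨b, hb⟩ := hd2
  have hsq : ((-1 : ℤ) ^ (m + 1)) * (-1) ^ (m + 1) = 1 := by
    rw [← mul_pow]; norm_num
  rw [ha] at e1
  rw [hb] at e2
  refine ⟨-(-1) ^ (m + 1) * a, -(-1) ^ (m + 1) * b, ?_, ?_, ?_, ?_⟩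
  · have : (-1 : ℤ) ^ (m + 1) * (p * a + (-1) ^ (m + 1) * 1 * (Nat.fib p : ℤ))
        = (-1) ^ (m + 1) * ((-1) ^ (m + 1) * ep p) := by rw [e1]
    linear_combination this - (Nat.fib p : ℤ) * hsq + ep p * hsq
  · have : (-1 : ℤ) ^ (m + 1) * (p * b + (-1) ^ (m + 1) * 1 * luc p)
        = (-1) ^ (m + 1) * ((-1) ^ (m + 1)) := by rw [e2]
    linear_combination this - luc p * hsq + hsq
  · rw [show m + 1 + 1 = m + 2 by ring, ha, pow_succ]
    linear_combination (-(p : ℤ) * a) * hsq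
  · rw [show m + 1 + 1 = m + 2 by ring, hb, pow_succ]
    linear_combination (-(p : ℤ) * b) * hsq

/-- The relation between `f` and `l`. -/
lemma rel {p : ℕ} (hp : p.Prime) (hodd : Odd p) {f l : ℤ} (hf : (Nat.fib p : ℤ) = ep p + p * f)
    (hl : luc p = 1 + p * l) :
    2 * l - 10 * ep p * f + p * (l ^ 2 - 5 * f ^ 2) = 0 := by
  have h := luc_sq p
  rw [hf, hl, hodd.neg_one_pow] at h
  have he : (ep p) ^ 2 = 1 := by rcases ep_cases p with h | h <;> rw [h] <;> norm_num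
  have hp0 : (p : ℤ) ≠ 0 := by exact_mod_cast hp.ne_zero
  apply mul_left_cancel₀ hp0
  linear_combination h + 5 * he

/-- `2 F_{p - ε} = L_p - ε F_p`. -/
lemma fib_sub_ep {p : ℕ} (hp : p.Prime) :
    2 * (Nat.fib ((p : ℤ) - ep p).toNat : ℤ) = luc p - ep p * Nat.fib p := by
  obtain ⟨n, rfl⟩ : ∃ n, p = n + 1 := ⟨p - 1, by have := hp.pos; omega⟩
  rcases ep_cases (n + 1) with h | h
  · rw [h]
    have : (((n + 1 : ℕ) : ℤ) - 1).toNat = n := by omega
    rw [this, (luc_fib (n + 1)).1, show n + 1 + 1 = n + 2 by ring, Nat.fib_add_two]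
    push_cast; ring
  · rw [h]
    have : (((n + 1 : ℕ) : ℤ) - -1).toNat = n + 2 := by omega
    rw [this, (luc_fib (n + 1)).1, show n + 1 + 1 = n + 2 by ring]
    ring

lemma algebra_facts {P f l e q r : ℚ} (he : e ^ 2 = 1) (hr : r = l ^ 2 - 5 * f ^ 2)
    (hrel : 2 * l - 10 * e * f + P * (l ^ 2 - 5 * f ^ 2) = 0) (hq : q = (l - e * f) / 2) :
    (-(f + e * l + P * f * l) / 2 + e * (3 * q / 2 + 5 * P * q ^ 2 / 4)
      = P ^ 2 * (-(3 * f * r / 8) + 3 * e * P * r ^ 2 / 64)) ∧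
    (-l - P * l ^ 2 / 2 + (5 * q / 2 + 15 * P * q ^ 2 / 4)
      = P ^ 2 * (-(5 * e * f * r / 8) + 5 * P * r ^ 2 / 64)) ∧
    (f - e * (q / 2 + 5 * P * q ^ 2 / 8) = P ^ 2 * (-(e * P * r ^ 2) / 128)) ∧
    (l - (5 * q / 2 + 5 * P * q ^ 2 / 8) = P ^ 2 * (-(P * r ^ 2) / 128)) := by
  have hl : l = 5 * e * f - P * r / 2 := by rw [hr]; linear_combination hrel / 2
  have hs : r = 20 * f ^ 2 - 5 * e * P * f * r + P ^ 2 * r ^ 2 / 4 := by
    have : r = (5 * e * f - P * r / 2) ^ 2 - 5 * f ^ 2 := by rw [← hl]; exact hr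
    linear_combination this + 25 * f ^ 2 * he
  have hq' : q = 2 * e * f - P * r / 4 := by rw [hq, hl]; ring
  rw [hq', hl]
  have hcase : e = 1 ∨ e = -1 := by
    have : (e - 1) * (e + 1) = 0 := by linear_combination he
    rcases mul_eq_zero.1 this with h | h
    · left; linarith
    · right; linarith
  clear hq' hq hr hrel hl
  refine ⟨?_, ?_, ?_, ?_⟩
  · rcases hcase with rfl | rfl
    · linear_combination (-P / 8) * hs
    · linear_combination (P / 8) * hs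
  · rcases hcase with rfl | rfl
    · linear_combination (-P / 8) * hs
    · linear_combination (-P / 8) * hs
  · rcases hcase with rfl | rfl
    · linear_combination (P / 8) * hs
    · linear_combination (-P / 8) * hs
  · rcases hcase with rfl | rfl
    · linear_combination (P / 8) * hs
    · linear_combination (P / 8) * hs

end Pool.Agent.J6H90.FibCong
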