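import Pool.Agent.J6H90.FibCong.Bin

/-!
# The four congruences
-/

namespace Pool.Agent.J6H90.FibCong

open Finset

/-- Congruence modulo `p²` of rational numbers. -/
def Cong (p : ℕ) (a b : ℚ) : Prop := ∃ c : ℚ, ¬ p ∣ c.den ∧ a - b = (p : ℚ) ^ 2 * c

lemma Cong.trans' {p : ℕ} (hp : p.Prime) {a b c : ℚ} (h1 : Cong p a b) (h2 : Cong p b c) :
    Cong p a c := by
  obtain ⟨x, hx, h1⟩ := h1
  obtain ⟨y, hy, h2⟩ := h2
  exact ⟨x + y, PInt.add hp hx hy, by rw [mul_add, ← h1, ← h2]; ring⟩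

lemma luc_fib (n : ℕ) : luc n = 2 * (Nat.fib (n + 1) : ℤ) - Nat.fib n ∧
    luc (n + 1) = 2 * (Nat.fib (n + 2) : ℤ) - Nat.fib (n + 1) := by
  induction n with
  | zero => simp [luc]
  | succ n ih =>
    refine ⟨ih.2, ?_⟩
    have : luc (n + 1 + 1) = luc (n + 1) + luc n := rfl
    rw [this, ih.1, ih.2]
    have h1 : Nat.fib (n + 1 + 2) = Nat.fib (n + 1) + Nat.fib (n + 2) := Nat.fib_add_two
    have h2 : Nat.fib (n + 2) = Nat.fib n + Nat.fib (n + 1) := Nat.fib_add_two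
    rw [h1, show n + 1 + 1 = n + 2 by ring]
    push_cast [h2]
    ring

lemma luc_sq (n : ℕ) : luc n ^ 2 - 5 * (Nat.fib n : ℤ) ^ 2 = 4 * (-1) ^ n := by
  have h : ((luc n ^ 2 - 5 * (Nat.fib n : ℤ) ^ 2 : ℤ) : ℝ) = ((4 * (-1) ^ n : ℤ) : ℝ) := by
    have h1 := luc_real n
    have h2 := fib_real n
    have h5 : (√5 : ℝ) ^ 2 = 5 := Real.sq_sqrt (by norm_num)
    have h0 := sqrt5_ne
    have h3 := Real.goldenRatio_mul_goldenConj
    rw [Int.cast_sub, Int.cast_pow, Int.cast_mul, Int.cast_pow, h1, h2]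
    push_cast
    rw [← h3]
    generalize Real.goldenRatio = g
    generalize Real.goldenConj = c
    rw [div_pow, h5, mul_pow]
    ring
  exact_mod_cast h

lemma fib_two_mul' (n : ℕ) : (Nat.fib (2 * n) : ℤ) = Nat.fib n * luc n := by
  rw [Nat.fib_two_mul, (luc_fib n).1]
  rw [Nat.cast_mul, Nat.cast_sub (by
    have := Nat.fib_le_fib_succ (n := n)
    omega)]
  push_cast
  ring

lemma luc_two_mul (n : ℕ) : luc (2 * n) = luc n ^ 2 - 2 * (-1) ^ n := by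
  have h : ((luc (2 * n) : ℤ) : ℝ) = ((luc n ^ 2 - 2 * (-1) ^ n : ℤ) : ℝ) := by
    have h1 := luc_real n
    have h2 := luc_real (2 * n)
    push_cast at *
    rw [h1, h2, ← Real.goldenRatio_mul_goldenConj, mul_pow, pow_mul, pow_mul, ← pow_mul,
      ← pow_mul]
    ring
  exact_mod_cast h

variable {p : ℕ}

lemma not_dvd_of_lt {k : ℕ} (hk : 0 < k) (hkp : k < p) : ¬ (p : ℤ) ∣ (k : ℤ) := by
  intro h
  have := Nat.le_of_dvd hk (by exact_mod_cast h)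
  omega

/-- A single term of the first two sums. -/
lemma term1 (hp : p.Prime) (h2 : p ≠ 2) {k : ℕ} (hk : 1 ≤ k) (hkp : k < p) (x : ℤ) :
    ∃ c : ℚ, PInt p c ∧ (p : ℚ) * ((x : ℚ) / ((k : ℚ) ^ 2 * Nat.centralBinom k))
      - (-(((-1) ^ k * ((((p + k).choose (2 * k) : ℤ) : ℚ)
      + (((p - 1 + k).choose (2 * k) : ℤ) : ℚ))) * x) / (2 * p)) = (p : ℚ) ^ 2 * c := by
  obtain ⟨n, rfl⟩ : ∃ n, p = n + 1 := ⟨p - 1, by have := hp.pos; omega⟩
  obtain ⟨j, rfl⟩ : ∃ j, k = j + 1 := ⟨k - 1, by omega⟩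
  have hcl := ek_closed n j (by omega)
  unfold ek at hcl
  obtain ⟨y, hy, hprod⟩ := prod_one_sub hp (Ico 1 (j + 1)) (fun i : ℕ => ((i : ℚ) ^ 2)⁻¹) (by
    intro i hi
    rw [mem_Ico] at hi
    have := (PInt.inv_int (p := n + 1) (not_dvd_of_lt (by omega : 0 < i) (by omega))).pow hp 2
    simpa [inv_pow] using this)
  have hc := p_div_central hp h2 (k := j + 1) (by omega)
  have hinv : PInt (n + 1) ((((j + 1 : ℕ) : ℚ) ^ 2)⁻¹) := by
    have := (PInt.inv_int (p := n + 1) (not_dvd_of_lt (by omega : 0 < j + 1) hkp)).pow hp 2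
    simpa [inv_pow] using this
  refine ⟨-(((n + 1 : ℕ) : ℚ) / (Nat.centralBinom (j + 1) : ℚ)) * (((j + 1 : ℕ) : ℚ) ^ 2)⁻¹ * y * x,
    ?_, ?_⟩
  · exact ((hc.neg.mul hp hinv).mul hp hy).mul hp (PInt.int hp x)
  · unfold pr at hcl
    have hP : ∏ i ∈ Ico 1 (j + 1), (1 - ((n : ℚ) + 1) ^ 2 * ((i : ℚ) ^ 2)⁻¹)
        = 1 + ((n : ℚ) + 1) ^ 2 * y := by
      have := hprod
      push_cast at this
      exact this
    rw [hP] at hcl
    have hc0 : (Nat.centralBinom (j + 1) : ℚ) ≠ 0 := by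
      exact_mod_cast Nat.centralBinom_ne_zero (j + 1)
    have hj0 : ((j : ℚ) + 1) ≠ 0 := by positivity
    have hn0 : ((n : ℚ) + 1) ≠ 0 := by positivity
    have hE : (((n + 1 + (j + 1)).choose (2 * (j + 1)) : ℚ)
        + ((n + (j + 1)).choose (2 * (j + 1)) : ℚ))
        = (-1) ^ j * (2 * ((n : ℚ) + 1) ^ 2) * (1 + ((n : ℚ) + 1) ^ 2 * y)
          / (((j : ℚ) + 1) ^ 2 * Nat.centralBinom (j + 1)) := by
      rw [eq_div_iff (by positivity), hcl]
    have hsub : n + 1 - 1 = n := by omega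
    rw [hsub]
    simp only [Int.cast_natCast]
    rw [hE]
    push_cast
    have hs : ((-1 : ℚ) ^ (j + 1)) * (-1) ^ j = -1 := by
      rw [← pow_add, show j + 1 + j = 2 * j + 1 by ring, pow_succ, pow_mul]; norm_num
    have hs2 : ((-1 : ℚ) ^ (j + 1)) * ((-1) ^ j * (2 * ((n : ℚ) + 1) ^ 2)
        * (1 + ((n : ℚ) + 1) ^ 2 * y) / (((j : ℚ) + 1) ^ 2 * Nat.centralBinom (j + 1)))
        = - ((2 * ((n : ℚ) + 1) ^ 2)
        * (1 + ((n : ℚ) + 1) ^ 2 * y) / (((j : ℚ) + 1) ^ 2 * Nat.centralBinom (j + 1))) := by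
      rw [mul_div_assoc', ← mul_assoc, ← mul_assoc, hs]; ring
    rw [hs2]
    field_simp
    ring

/-- A single term of the last two sums. -/
lemma term2 (hp : p.Prime) {M : ℕ} (hM : p = 2 * M + 1) {k : ℕ} (hk : k < M) (x : ℤ) :
    ∃ c : ℚ, PInt p c ∧ (Nat.centralBinom k : ℚ) * x / ((2 * k + 1) * 16 ^ k)
      - (((-1) ^ k * ((((M + 1 + k).choose (2 * k + 1) : ℤ) : ℚ)
      + (((M + k).choose (2 * k + 1) : ℤ) : ℚ))) * x) / p = (p : ℚ) ^ 2 * c := by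
  have hcl := choose_closed M k hk.le
  have hodd := odd_choose M k hk.le
  obtain ⟨y, hy, hprod⟩ := prod_one_sub hp (range k) (fun i : ℕ => ((2 * (i : ℚ) + 1) ^ 2)⁻¹) (by
    intro i hi
    rw [mem_range] at hi
    have := (PInt.inv_int (p := p) (not_dvd_of_lt (by omega : 0 < 2 * i + 1) (by omega))).pow hp 2
    simpa [inv_pow] using this)
  have hinv : PInt p ((((2 * k + 1 : ℕ) : ℤ) : ℚ)⁻¹) :=
    PInt.inv_int (not_dvd_of_lt (by omega) (by omega))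
  have h16 : PInt p (((16 ^ k : ℕ) : ℤ) : ℚ)⁻¹ := by
    apply PInt.inv_int
    intro h
    have h' : p ∣ 16 ^ k := by exact_mod_cast h
    have h'' := hp.dvd_of_dvd_pow h'
    have : p ∣ 2 ^ 4 := by simpa using h''
    have := (Nat.prime_dvd_prime_iff_eq hp Nat.prime_two).1 (hp.dvd_of_dvd_pow this)
    omega
  refine ⟨-(((Nat.centralBinom k : ℕ) : ℤ) : ℚ) * (((2 * k + 1 : ℕ) : ℤ) : ℚ)⁻¹
    * (((16 ^ k : ℕ) : ℤ) : ℚ)⁻¹ * y * x, ?_, ?_⟩
  · exact ((((PInt.int hp _).neg.mul hp hinv).mul hp h16).mul hp hy).mul hp (PInt.int hp x)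
  · have hpq : (p : ℚ) = 2 * (M : ℚ) + 1 := by rw [hM]; push_cast; ring
    have hp0 : (p : ℚ) ≠ 0 := by exact_mod_cast hp.ne_zero
    rw [← hpq, hprod] at hcl
    rw [← hpq] at hodd
    have h1 : (2 * (k : ℚ) + 1) ≠ 0 := by positivity
    have h16' : (16 : ℚ) ^ k ≠ 0 := by positivity
    simp only [Int.cast_natCast]
    push_cast
    have hsum : (((M + 1 + k).choose (2 * k + 1) : ℚ) + ((M + k).choose (2 * k + 1) : ℚ))
        = p * ((M + k).choose (2 * k) : ℚ) / (2 * k + 1) := by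
      rw [eq_div_iff h1, hodd]
    have hch : (-1) ^ k * ((M + k).choose (2 * k) : ℚ)
        = Nat.centralBinom k * (1 + (p : ℚ) ^ 2 * y) / 16 ^ k := by
      rw [eq_div_iff h16', hcl]
    rw [hsum]
    have : (-1 : ℚ) ^ k * (p * ((M + k).choose (2 * k) : ℚ) / (2 * k + 1)) * x / p
        = ((-1) ^ k * ((M + k).choose (2 * k) : ℚ)) * x / (2 * k + 1) := by
      field_simp
    rw [this, hch]
    field_simp
    ring

lemma cong_sum (hp : p.Prime) {ι : Type*} (s : Finset ι) (f g : ι → ℚ)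
    (h : ∀ i ∈ s, ∃ c : ℚ, PInt p c ∧ f i - g i = (p : ℚ) ^ 2 * c) :
    Cong p (∑ i ∈ s, f i) (∑ i ∈ s, g i) := by
  classical
  induction s using Finset.induction_on with
  | empty => exact ⟨0, by exact_mod_cast PInt.int hp 0, by simp⟩
  | insert a s ha ih =>
    obtain ⟨c, hc, h1⟩ := h a (mem_insert_self a s)
    obtain ⟨d, hd, h2⟩ := ih fun i hi => h i (mem_insert_of_mem hi)
    refine ⟨c + d, PInt.add hp hc hd, ?_⟩
    rw [sum_insert ha, sum_insert ha, mul_add, ← h1, ← h2]; ring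

end Pool.Agent.J6H90.FibCong
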