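import Mathlib

/-!
# Chebyshev type sums at the golden ratio
-/

namespace Pool.Agent.J6H90.FibCong

open Finset

variable {R : Type*} [CommRing R]

/-- `∑ (-1)^k C(n+k+d, 2k+d) t^k`, truncated. -/
def BS (d N n : ℕ) (t : R) : R :=
  ∑ k ∈ range N, (-1) ^ k * ((n + k + d).choose (2 * k + d) : R) * t ^ k

lemma pascal2 (a b : ℕ) : (a + 2).choose (b + 2) + a.choose (b + 2)
    = 2 * (a + 1).choose (b + 2) + a.choose b := by
  rw [Nat.choose_succ_succ (a + 1) (b + 1), Nat.choose_succ_succ a b,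
    Nat.choose_succ_succ a (b + 1)]
  ring

lemma pascal2' (a b : ℕ) : ((a + 2).choose (b + 2) : R) + a.choose (b + 2)
    = 2 * (a + 1).choose (b + 2) + a.choose b := by
  exact_mod_cast congrArg (Nat.cast (R := R)) (pascal2 a b)

lemma BS_rec {d N n : ℕ} (hd : d ≤ 1) (h : n + 2 < N) (t : R) :
    BS d N (n + 2) t = (2 - t) * BS d N (n + 1) t - BS d N n t := by
  obtain ⟨M, rfl⟩ : ∃ M, N = M + 1 := ⟨N - 1, by omega⟩
  have hM : n + 1 < M := by omega
  have key : BS d (M + 1) (n + 2) t + BS d (M + 1) n t - 2 * BS d (M + 1) (n + 1) t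
      = -(t * BS d (M + 1) (n + 1) t) := by
    have h0 : ((n + 2 + 0 + d).choose (2 * 0 + d) : R) + ((n + 0 + d).choose (2 * 0 + d) : R)
        - 2 * ((n + 1 + 0 + d).choose (2 * 0 + d) : R) = 0 := by
      interval_cases d
      · simp; norm_num
      · simp only [mul_zero, zero_add, add_zero, Nat.choose_one_right]
        push_cast; ring
    have hL : BS d (M + 1) (n + 2) t + BS d (M + 1) n t - 2 * BS d (M + 1) (n + 1) t
        = ∑ k ∈ range M, (-1) ^ (k + 1) * ((n + 1 + k + d).choose (2 * k + d) : R) * t ^ (k + 1) := by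
      unfold BS
      rw [mul_sum, ← sum_add_distrib, ← sum_sub_distrib, sum_range_succ']
      have hz : (-1 : R) ^ 0 * ((n + 2 + 0 + d).choose (2 * 0 + d) : R) * t ^ 0
          + (-1) ^ 0 * ((n + 0 + d).choose (2 * 0 + d) : R) * t ^ 0
          - 2 * ((-1) ^ 0 * ((n + 1 + 0 + d).choose (2 * 0 + d) : R) * t ^ 0) = 0 := by
        linear_combination h0
      rw [hz, add_zero]
      apply sum_congr rfl
      intro k _
      have hp := pascal2' (R := R) (n + 1 + k + d) (2 * k + d)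
      have e1 : n + 2 + (k + 1) + d = n + 1 + k + d + 2 := by ring
      have e2 : n + (k + 1) + d = n + 1 + k + d := by ring
      have e3 : n + 1 + (k + 1) + d = n + 1 + k + d + 1 := by ring
      have e4 : 2 * (k + 1) + d = 2 * k + d + 2 := by ring
      rw [e1, e2, e3, e4]
      linear_combination ((-1) ^ (k + 1) * t ^ (k + 1)) * hp
    have hR : BS d (M + 1) (n + 1) t
        = ∑ k ∈ range M, (-1) ^ k * ((n + 1 + k + d).choose (2 * k + d) : R) * t ^ k := by
      unfold BS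
      rw [sum_range_succ, Nat.choose_eq_zero_of_lt (by omega)]
      simp
    rw [hL, hR, mul_sum, ← sum_neg_distrib]
    apply sum_congr rfl
    intro k _
    ring
  linear_combination key

/-- The two starting values for `d = 0`. -/
lemma BS0_zero {N : ℕ} (h : 0 < N) (t : R) : BS 0 N 0 t = 1 := by
  unfold BS
  rw [sum_eq_single_of_mem 0 (mem_range.2 h)]
  · simp
  · intro b _ hb
    rw [Nat.choose_eq_zero_of_lt (by omega)]; simp

lemma BS0_one {N : ℕ} (h : 1 < N) (t : R) : BS 0 N 1 t = 1 - t := by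
  unfold BS
  obtain ⟨M, rfl⟩ : ∃ M, N = M + 2 := ⟨N - 2, by omega⟩
  rw [sum_range_succ', sum_range_succ']
  have : ∑ k ∈ range M, (-1 : R) ^ (k + 1 + 1) * ((1 + (k + 1 + 1) + 0).choose (2 * (k + 1 + 1) + 0) : R)
      * t ^ (k + 1 + 1) = 0 := by
    apply sum_eq_zero
    intro k _
    rw [Nat.choose_eq_zero_of_lt (by omega)]; simp
  rw [this]
  simp
  ring

lemma BS1_zero {N : ℕ} (h : 0 < N) (t : R) : BS 1 N 0 t = 1 := by
  unfold BS
  rw [sum_eq_single_of_mem 0 (mem_range.2 h)]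
  · simp
  · intro b _ hb
    rw [Nat.choose_eq_zero_of_lt (by omega)]; simp

lemma BS1_one {N : ℕ} (h : 1 < N) (t : R) : BS 1 N 1 t = 2 - t := by
  unfold BS
  obtain ⟨M, rfl⟩ : ∃ M, N = M + 2 := ⟨N - 2, by omega⟩
  rw [sum_range_succ', sum_range_succ']
  have : ∑ k ∈ range M, (-1 : R) ^ (k + 1 + 1) * ((1 + (k + 1 + 1) + 1).choose (2 * (k + 1 + 1) + 1) : R)
      * t ^ (k + 1 + 1) = 0 := by
    apply sum_eq_zero
    intro k _
    rw [Nat.choose_eq_zero_of_lt (by omega)]; simp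
  rw [this]
  simp
  ring

/-- At `t = x²` with `x² = x + 1`, the sequences change sign after five steps. -/
lemma anti_period {u : ℕ → R} {x : R} (hx : x ^ 2 = x + 1) {K : ℕ}
    (hu : ∀ n, n + 2 ≤ K → u (n + 2) = (2 - x ^ 2) * u (n + 1) - u n) (n : ℕ) (hn : n + 5 ≤ K) :
    u (n + 5) = - u n := by
  have h2 := hu n (by omega)
  have h3 := hu (n + 1) (by omega)
  have h4 := hu (n + 2) (by omega)
  have h5 := hu (n + 3) (by omega)
  simp only [add_assoc] at h2 h3 h4 h5
  norm_num at h2 h3 h4 h5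
  rw [h5, h4, h3, h2]
  have hy : (2 - x ^ 2) ^ 2 = (2 - x ^ 2) + 1 := by
    have : x ^ 4 = 3 * x + 2 := by
      have : x ^ 4 = (x ^ 2) ^ 2 := by ring
      rw [this, hx]; linear_combination hx
    linear_combination this - 3 * hx
  generalize 2 - x ^ 2 = y at hy
  have hy3 : y ^ 3 = 2 * y + 1 := by linear_combination (y + 1) * hy
  have hy4 : y ^ 4 = 3 * y + 2 := by linear_combination y * hy3 + 2 * hy
  linear_combination (u (n + 1) : R) * hy4 - (u n) * hy3 - 3 * u (n + 1) * hy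

lemma quint {u : ℕ → R} {x : R} (hx : x ^ 2 = x + 1)
    (hu : ∀ n, u (n + 2) = (2 - x ^ 2) * u (n + 1) - u n) (q r : ℕ) :
    u (5 * q + r) = (-1) ^ q * u r := by
  induction q with
  | zero => simp
  | succ q ih =>
    have := anti_period hx (K := 5 * q + r + 5) (fun n _ => hu n) (5 * q + r) le_rfl
    rw [show 5 * (q + 1) + r = 5 * q + r + 5 by ring, this, ih, pow_succ]
    ring

/-- The full sum: only the terms `k ≤ n` are nonzero. -/
lemma BS_trunc (d : ℕ) {N n : ℕ} (h : n < N) (t : R) : BS d N n t = BS d (n + 1) n t := by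
  unfold BS
  symm
  apply sum_subset
  · intro a ha
    rw [mem_range] at *
    omega
  · intro a _ ha
    rw [mem_range, not_lt] at ha
    rw [Nat.choose_eq_zero_of_lt (by omega)]; simp

/-- The stable value of the sum. -/
def SS (d n : ℕ) (t : R) : R := BS d (n + 1) n t

lemma SS_rec {d : ℕ} (hd : d ≤ 1) (n : ℕ) (t : R) :
    SS d (n + 2) t = (2 - t) * SS d (n + 1) t - SS d n t := by
  unfold SS
  rw [← BS_trunc d (show n + 2 < n + 3 by omega), ← BS_trunc d (show n + 1 < n + 3 by omega),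
    ← BS_trunc d (show n < n + 3 by omega)]
  exact BS_rec hd (by omega) t

lemma SS0_zero (t : R) : SS 0 0 t = 1 := BS0_zero (by omega) t
lemma SS0_one (t : R) : SS 0 1 t = 1 - t := BS0_one (by omega) t
lemma SS1_zero (t : R) : SS 1 0 t = 1 := BS1_zero (by omega) t
lemma SS1_one (t : R) : SS 1 1 t = 2 - t := BS1_one (by omega) t

/-- `ep n` is `1` if `n ≡ ±1 (mod 5)` and `-1` otherwise. -/
def ep (n : ℕ) : ℤ := if n % 5 = 1 ∨ n % 5 = 4 then 1 else -1

lemma A_eq {x : R} (hx : x ^ 2 = x + 1) (n : ℕ) (hodd : Odd (n + 1)) (h5 : (n + 1) % 5 ≠ 0) :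
    SS 0 (n + 1) (x ^ 2) + SS 0 n (x ^ 2) = if ep (n + 1) = 1 then 1 - x else x := by
  have hu : ∀ n, SS 0 (n + 2) (x ^ 2) = (2 - x ^ 2) * SS 0 (n + 1) (x ^ 2) - SS 0 n (x ^ 2) :=
    fun n => SS_rec (by omega) n _
  have v0 : SS 0 0 (x ^ 2) = 1 := SS0_zero _
  have v1 : SS 0 1 (x ^ 2) = -x := by rw [SS0_one]; linear_combination -hx
  have v2 : SS 0 2 (x ^ 2) = 0 := by
    rw [hu 0, v1, v0]
    linear_combination (x + 1) * hx
  have v3 : SS 0 3 (x ^ 2) = x := by
    rw [hu 1, v2, v1]; ring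
  have v4 : SS 0 4 (x ^ 2) = -1 := by
    rw [hu 2, v3, v2]
    linear_combination (-x - 1) * hx
  obtain ⟨q, r, hr, hqr⟩ : ∃ q r, r < 5 ∧ n = 5 * q + r :=
    ⟨n / 5, n % 5, Nat.mod_lt _ (by norm_num), (Nat.div_add_mod n 5).symm⟩
  subst hqr
  have hq := quint (u := fun n => SS 0 n (x ^ 2)) hx hu q
  rw [hq r, show 5 * q + r + 1 = 5 * q + (r + 1) by ring, hq (r + 1)]
  rw [show 5 * q + r + 1 = 5 * q + (r + 1) by ring] at h5 hodd
  have hpar : Odd q ↔ Even (r + 1) := by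
    rw [Nat.odd_add] at hodd
    rw [← hodd]
    constructor
    · intro h; exact Nat.odd_mul.2 ⟨by decide, h⟩
    · intro h; exact (Nat.odd_mul.1 h).2
  unfold ep
  rw [Nat.mul_add_mod]
  interval_cases r
  · have : Even q := by rw [← Nat.not_odd_iff_even, hpar]; decide
    rw [this.neg_one_pow, v0, v1]; norm_num; ring
  · have : Odd q := hpar.2 (by decide)
    rw [this.neg_one_pow, v1, v2]; norm_num
  · have : Even q := by rw [← Nat.not_odd_iff_even, hpar]; decide
    rw [this.neg_one_pow, v2, v3]; norm_num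
  · have : Odd q := hpar.2 (by decide)
    rw [this.neg_one_pow, v3, v4]; norm_num; ring
  · exfalso; apply h5; omega

lemma C_eq {x : R} (hx : x ^ 2 = x + 1) (m : ℕ) (h5 : (2 * (m + 1) + 1) % 5 ≠ 0) :
    x * (SS 1 (m + 1) (x ^ 2) + SS 1 m (x ^ 2))
      = (-1) ^ (m + 1) * if ep (2 * (m + 1) + 1) = 1 then x else 1 - x := by
  have hu : ∀ n, SS 1 (n + 2) (x ^ 2) = (2 - x ^ 2) * SS 1 (n + 1) (x ^ 2) - SS 1 n (x ^ 2) :=
    fun n => SS_rec (by omega) n _
  have v0 : SS 1 0 (x ^ 2) = 1 := SS1_zero _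
  have v1 : SS 1 1 (x ^ 2) = 1 - x := by rw [SS1_one]; linear_combination -hx
  have v2 : SS 1 2 (x ^ 2) = 1 - x := by
    rw [hu 0, v1, v0]
    linear_combination x * hx
  have v3 : SS 1 3 (x ^ 2) = 1 := by
    rw [hu 1, v2, v1]; linear_combination x * hx
  have v4 : SS 1 4 (x ^ 2) = 0 := by
    rw [hu 2, v3, v2]
    linear_combination -hx
  have v5 : SS 1 5 (x ^ 2) = -1 := by
    rw [hu 3, v4, v3]
    ring
  obtain ⟨q, r, hr, hqr⟩ : ∃ q r, r < 5 ∧ m = 5 * q + r :=
    ⟨m / 5, m % 5, Nat.mod_lt _ (by norm_num), (Nat.div_add_mod m 5).symm⟩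
  subst hqr
  have hq := quint (u := fun n => SS 1 n (x ^ 2)) hx hu q
  rw [hq r, show 5 * q + r + 1 = 5 * q + (r + 1) by ring, hq (r + 1)]
  have hmod : (2 * (5 * q + (r + 1)) + 1) % 5 = (2 * (r + 1) + 1) % 5 := by omega
  have h5' : (2 * (r + 1) + 1) % 5 ≠ 0 := by
    rw [← hmod]
    rwa [show 5 * q + r + 1 = 5 * q + (r + 1) by ring] at h5
  unfold ep
  rw [hmod, pow_add, pow_mul, show ((-1 : R) ^ 5) = -1 by norm_num]
  interval_cases r
  · rw [v0, v1]; norm_num
    linear_combination (-(-1) ^ q) * hx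
  · exfalso; apply h5'; norm_num
  · rw [v2, v3]; norm_num
    linear_combination (-(-1) ^ q) * hx
  · rw [v3, v4]; norm_num; ring
  · rw [v4, v5]; norm_num; ring

end Pool.Agent.J6H90.FibCong
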